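import Pool.Agent.X197.BK.N4

/-!
# MP_96bc49_an: Burns-Krantz rigidity of the symmetrized polydisc at generic Shilov points

For every `n`, the pair `(G_n, p)` has the Burns-Krantz rigidity property at every point
`p = π_n(τ_1, ..., τ_n)` of the Shilov boundary with pairwise distinct `τ_1, ..., τ_n`.
-/

set_option autoImplicit false

open Filter Topology Set Asymptotics

namespace Pool.Agent.Results.MP_96bc49_an.GenericShilovPoints

/-- the symmetrization map `π_n`: its `k`-th coordinate is the `(k+1)`-st elementary symmetric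
polynomial (`k = 0, ..., n-1`) -/
noncomputable def symmap {n : ℕ} (l : Fin n → ℂ) : Fin n → ℂ :=
  fun k => ∑ s ∈ Finset.powersetCard ((k : ℕ) + 1) Finset.univ, ∏ i ∈ s, l i

/-- the symmetrized polydisc -/
def Gn (n : ℕ) : Set (Fin n → ℂ) := {z | ∃ l : Fin n → ℂ, (∀ j, ‖l j‖ < 1) ∧ z = symmap l}

theorem result {n : ℕ} (τ : Fin n → ℂ) (hτ : ∀ j, ‖τ j‖ = 1) (hinj : Function.Injective τ)
    (F : (Fin n → ℂ) → Fin n → ℂ) (hF : DifferentiableOn ℂ F (Gn n))
    (hm : MapsTo F (Gn n) (Gn n))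
    (ho : (fun z => F z - z) =o[𝓝[Gn n] (symmap τ)] (fun z => ‖z - symmap τ‖ ^ 3)) :
    ∀ z ∈ Gn n, F z = z :=
  Pool.Agent.X197.BKN.main F hF hm τ hτ hinj ho

end Pool.Agent.Results.MP_96bc49_an.GenericShilovPoints
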